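import Mathlib
import Pool.Agent.H.MP_4ccfbf_an.A

set_option autoImplicit false
open Filter Topology Complex
open scoped InnerProductSpace

namespace Pool.Agent.Results.MP_4ccfbf_an.HalfOptimal

section defs
variable {H Y : Type} [NormedAddCommGroup H] [InnerProductSpace ℂ H] [CompleteSpace H]
  [NormedAddCommGroup Y] [InnerProductSpace ℂ Y] [CompleteSpace Y]

/-- The quadratic form of `A` on its domain. -/
noncomputable def form (A : H →ₗ.[ℂ] H) (u : A.domain) : ℝ := (⟪A u, (u : H)⟫_ℂ).re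

/-- The energy space norm of the pair `(u, v)`. -/
noncomputable def normE (A : H →ₗ.[ℂ] H) (u : A.domain) (v : H) : ℝ :=
  √(form A u + ‖(u : H)‖ ^ 2 + ‖v‖ ^ 2)

/-- Weak (equivalently mild) solutions of the Schrodinger equation. -/
def Schr (A : H →ₗ.[ℂ] H) (u : ℝ → H) : Prop :=
  Continuous u ∧ ∀ (φ : A.domain) (t : ℝ),
    HasDerivAt (fun s => ⟪(φ : H), u s⟫_ℂ) (-I * ⟪A φ, u t⟫_ℂ) t

/-- Second component of the generator applied to `(u, v)`. -/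
noncomputable def acc (A : H →ₗ.[ℂ] H) (B : Y →L[ℂ] H) (u v : A.domain) : H :=
  -A u - B (B.adjoint v)

/-- Regular solutions `(u, v) = (u, u')` of the damped wave system. -/
def Wave (A : H →ₗ.[ℂ] H) (B : Y →L[ℂ] H) (u v : ℝ → A.domain) : Prop :=
  ∀ t : ℝ, HasDerivAt (fun s => (u s : H)) (v t : H) t ∧
    HasDerivAt (fun s => A (u s)) (A (v t)) t ∧
    HasDerivAt (fun s => (v s : H)) (acc A B (u t) (v t)) t

/-- `(A + I)⁻¹` exists and is compact. -/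
def CompactResolvent (A : H →ₗ.[ℂ] H) : Prop :=
  ∃ R : H →L[ℂ] H, IsCompactOperator R ∧ ∀ x, ∃ h : R x ∈ A.domain, A ⟨R x, h⟩ + R x = x

/-- Observability of the Schrodinger system in some time. -/
def Observable (A : H →ₗ.[ℂ] H) (B : Y →L[ℂ] H) : Prop :=
  ∃ T > 0, ∃ K > 0, ∀ u : ℝ → H, Schr A u →
    ‖u 0‖ ^ 2 ≤ K * ∫ t in (0 : ℝ)..T, ‖B.adjoint (u t)‖ ^ 2

/-- Decay at rate `t ^ (-α)` along regular solutions. -/
def DecaysAt (A : H →ₗ.[ℂ] H) (B : Y →L[ℂ] H) (α : ℝ) : Prop :=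
  ∃ C : ℝ, ∀ u v : ℝ → A.domain, Wave A B u v → ∀ t : ℝ, 0 < t →
    √(form A (u t) + ‖(v t : H)‖ ^ 2) ≤ C * t ^ (-α) *
      (normE A (u 0) (v 0) + normE A (v 0) (acc A B (u 0) (v 0)))

omit [CompleteSpace H] in
lemma normE_le (A : H →ₗ.[ℂ] H) (u : A.domain) (v : H) (c : ℝ) (hc : 1 ≤ c)
    (h1 : ‖A u‖ ≤ 5 * c ^ 2 * ‖(u : H)‖) (h2 : ‖v‖ ≤ c * ‖(u : H)‖) :
    normE A u v ≤ 3 * c * ‖(u : H)‖ := by
  have h0 := norm_nonneg (u : H)
  have h3 : form A u ≤ 5 * c ^ 2 * ‖(u : H)‖ * ‖(u : H)‖ :=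
    ((Complex.re_le_norm _).trans (norm_inner_le_norm _ _)).trans
      (mul_le_mul_of_nonneg_right h1 h0)
  have h4 : ‖v‖ ^ 2 ≤ (c * ‖(u : H)‖) ^ 2 := pow_le_pow_left₀ (norm_nonneg _) h2 2
  have h5 : ‖(u : H)‖ ^ 2 ≤ (c * ‖(u : H)‖) ^ 2 :=
    pow_le_pow_left₀ h0 (le_mul_of_one_le_left h0 hc) 2
  refine Real.sqrt_le_iff.2 ⟨by positivity, ?_⟩
  nlinarith [sq_nonneg (c * ‖(u : H)‖)]

end defs

theorem result : ∃ (H Y : Type) (_ : NormedAddCommGroup H) (_ : InnerProductSpace ℂ H)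
    (_ : CompleteSpace H) (_ : NormedAddCommGroup Y) (_ : InnerProductSpace ℂ Y)
    (_ : CompleteSpace Y) (A : H →ₗ.[ℂ] H) (B : Y →L[ℂ] H),
    IsSelfAdjoint A ∧ (∀ u : A.domain, 0 ≤ form A u) ∧
    CompactResolvent A ∧ Observable A B ∧ ∀ α : ℝ, 1 / 2 < α → ¬ DecaysAt A B α := by
  suffices h : ∀ (H : Type) [NormedAddCommGroup H] [InnerProductSpace ℂ H] [CompleteSpace H]
      (A : H →ₗ.[ℂ] H) (B : H →L[ℂ] H), (∀ u : A.domain, 0 ≤ form A u) → ‖B‖ ≤ 2 →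
      (∀ n : ℕ, ∃ k : ℝ, n < k ∧ ∃ (w : A.domain) (z : ℂ), w ≠ 0 ∧
        A w = -(z ^ 2 • (w : H)) - z • B (B.adjoint w) ∧ -(1 / 2) ≤ z.re * k ∧ 1 ≤ ‖z‖ ∧
          ‖z‖ ^ 2 ≤ k) →
      ∀ α : ℝ, 1 / 2 < α → ¬ DecaysAt A B α by
    obtain ⟨A, B, h1, h2, h3, h4, h5, h6⟩ :=
      H.MP_4ccfbf_an.model (default : HilbertBasis (ℕ × Bool) ℂ (lp (fun _ : ℕ × Bool => ℂ) 2))
    exact ⟨_, _, _, _, inferInstance, _, _, inferInstance, A, B, h1, h2, h3,
      ⟨2 * Real.pi, by positivity, 1, one_pos, fun u hu => h4 u hu.1 hu.2⟩, h _ A B h2 h5 h6⟩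
  rintro H _ _ _ A B hA hB h α hα ⟨C, hC⟩
  have t1 : Tendsto (fun k : ℝ => 12 * |C| * k ^ (-(α - 1 / 2))) atTop (𝓝 0) := by
    simpa using (tendsto_rpow_neg_atTop (by linarith : 0 < α - 1 / 2)).const_mul (12 * |C|)
  obtain ⟨k0, hk0⟩ := eventually_atTop.1 (t1.eventually (gt_mem_nhds one_pos))
  obtain ⟨n, hn⟩ := exists_nat_ge k0
  obtain ⟨k, hk, w, z, hw, he, h1, h2, h3⟩ := h n
  have hk1 : 0 < k := lt_of_le_of_lt (Nat.cast_nonneg n) hk
  have hw0 : 0 < ‖(w : H)‖ := norm_pos_iff.2 fun h => hw (Subtype.ext h)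
  have hd : ∀ t : ℝ, HasDerivAt (fun s : ℝ => cexp (z * s)) (cexp (z * t) * z) t := fun t => by
    simpa using ((Complex.ofRealCLM.hasDerivAt (x := t)).const_mul z).cexp
  have hE : ∀ c : ℂ, acc A B (c • w) ((c * z) • w) = (c * z * z) • (w : H) := fun c => by
    rw [acc, LinearPMap.map_smul, he]
    simp only [Submodule.coe_smul, map_smul]
    module
  have := hC (fun t => cexp (z * t) • w) (fun t => (cexp (z * t) * z) • w) (fun t => ⟨?_, ?_, ?_⟩)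
    k hk1
  · simp only [ofReal_zero, mul_zero, Complex.exp_zero, hE] at this
    simp only [one_mul, one_smul] at this
    have hAw : ‖A w‖ ≤ 5 * ‖z‖ ^ 2 * ‖(w : H)‖ := by
      have b1 : ‖B (B.adjoint w)‖ ≤ 2 * (2 * ‖(w : H)‖) :=
        (B.le_of_opNorm_le hB _).trans (mul_le_mul_of_nonneg_left
          (B.adjoint.le_of_opNorm_le (by simpa using hB) _) (by norm_num))
      rw [he]
      refine (norm_sub_le _ _).trans ?_
      rw [norm_neg, norm_smul, norm_smul, norm_pow]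
      have b2 := mul_le_mul_of_nonneg_left b1 (norm_nonneg z)
      have b3 : ‖z‖ * ‖(w : H)‖ ≤ ‖z‖ ^ 2 * ‖(w : H)‖ :=
        mul_le_mul_of_nonneg_right (by nlinarith) hw0.le
      linarith
    have n1 := normE_le A w ((z • w : A.domain) : H) ‖z‖ h2 hAw
      (by rw [Submodule.coe_smul, norm_smul])
    have n2 := normE_le A (z • w) ((z * z) • (w : H)) ‖z‖ h2
      (by
        rw [LinearPMap.map_smul, Submodule.coe_smul, norm_smul, norm_smul]
        nlinarith [mul_le_mul_of_nonneg_left hAw (norm_nonneg z)])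
      (by rw [Submodule.coe_smul, norm_smul, norm_smul, norm_mul, mul_assoc])
    rw [Submodule.coe_smul z w, norm_smul] at n2
    have n3 : 1 / 2 * ‖z‖ * ‖(w : H)‖ ≤ √(form A (cexp (z * k) • w) +
        ‖(((cexp (z * k) * z) • w : A.domain) : H)‖ ^ 2) := by
      refine le_trans ?_ (Real.le_sqrt_of_sq_le (le_add_of_nonneg_left (hA _)))
      rw [Submodule.coe_smul, norm_smul, norm_mul, Complex.norm_exp]
      have := Real.add_one_le_exp (z * k).re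
      rw [Complex.re_mul_ofReal] at this ⊢
      gcongr
      linarith
    have n4 : normE A w ((z • w : A.domain) : H) + normE A (z • w) ((z * z) • (w : H)) ≤
        6 * ‖z‖ * (‖z‖ * ‖(w : H)‖) := by
      have : ‖z‖ * ‖(w : H)‖ ≤ ‖z‖ * (‖z‖ * ‖(w : H)‖) :=
        le_mul_of_one_le_left (by positivity) h2
      linarith
    have n5 : 0 ≤ normE A w ((z • w : A.domain) : H) + normE A (z • w) ((z * z) • (w : H)) :=
      add_nonneg (Real.sqrt_nonneg _) (Real.sqrt_nonneg _)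
    have hp : 0 < k ^ (-α) := Real.rpow_pos_of_pos hk1 _
    have n6 := (n3.trans this).trans (mul_le_mul (mul_le_mul_of_nonneg_right (le_abs_self C) hp.le)
      n4 n5 (by positivity))
    have n7 : ‖z‖ ≤ k ^ (1 / 2 : ℝ) := by
      rw [← Real.sqrt_eq_rpow]; exact Real.le_sqrt_of_sq_le h3
    have n8 := hk0 k (by linarith)
    rw [show -(α - 1 / 2) = -α + 1 / 2 by ring, Real.rpow_add hk1] at n8
    have n9 : 0 < ‖z‖ * ‖(w : H)‖ := by positivity
    have n10 : 1 ≤ 12 * |C| * (k ^ (-α) * ‖z‖) := by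
      by_contra hc
      nlinarith [mul_lt_mul_of_pos_right (not_le.1 hc) n9]
    have n11 : 12 * |C| * (k ^ (-α) * ‖z‖) ≤ 12 * |C| * (k ^ (-α) * k ^ (1 / 2 : ℝ)) := by gcongr
    linarith
  · exact (hd t).smul_const (w : H)
  · simp only [LinearPMap.map_smul]
    exact (hd t).smul_const (A w)
  · rw [hE]
    exact ((hd t).mul_const z).smul_const (w : H)

end Pool.Agent.Results.MP_4ccfbf_an.HalfOptimal
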